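import Pool.Agent.SGP.Stmts

/-!
# DRW: general position and no crossings give a drawing
-/

noncomputable section

namespace Pool.Agent.SGP.H19

open Pool.Agent.SGE Pool.Agent.SGP

theorem seg_zero {P B X : ℝ × ℝ} (h : X ∈ segment ℝ P B) : o P B X = 0 := by
  obtain ⟨s, t, _, _, hst, rfl⟩ := h
  have hs : s = 1 - t := by linarith
  subst hs
  simp only [o, Prod.fst_add, Prod.snd_add, Prod.smul_fst, Prod.smul_snd, smul_eq_mul]
  ring

theorem seg_eq {P B D X : ℝ × ℝ} (h : o P B D ≠ 0) (h1 : X ∈ segment ℝ P B)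
    (h2 : X ∈ segment ℝ P D) : X = P := by
  obtain ⟨s, t, _, _, hst, hX⟩ := h1
  obtain ⟨s', t', _, _, hst', hX'⟩ := h2
  have hs : s = 1 - t := by linarith
  have hs' : s' = 1 - t' := by linarith
  subst hs hs'
  have e1 := congrArg Prod.fst hX
  have e2 := congrArg Prod.snd hX
  have e1' := congrArg Prod.fst hX'
  have e2' := congrArg Prod.snd hX'
  simp only [Prod.fst_add, Prod.snd_add, Prod.smul_fst, Prod.smul_snd, smul_eq_mul]
    at e1 e2 e1' e2'
  have k : t * o P B D = 0 := by
    have a1 : X.1 - P.1 = t * (B.1 - P.1) := by rw [← e1]; ring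
    have a2 : X.2 - P.2 = t * (B.2 - P.2) := by rw [← e2]; ring
    have b1 : X.1 - P.1 = t' * (D.1 - P.1) := by rw [← e1']; ring
    have b2 : X.2 - P.2 = t' * (D.2 - P.2) := by rw [← e2']; ring
    have c : t * o P B D = (X.1 - P.1) * (D.2 - P.2) - (X.2 - P.2) * (D.1 - P.1) := by
      rw [a1, a2]
      unfold o
      ring
    rw [c, b1, b2]
    ring
  have ht : t = 0 := by
    rcases mul_eq_zero.mp k with h0 | h0
    · exact h0
    · exact absurd h0 h
  subst ht
  refine Prod.ext ?_ ?_
  · rw [← e1]; ring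
  · rw [← e2]; ring

theorem drw (seg : SegStmt) : DrwStmt := by
  intro V G f z gp hz hx
  have hinj : Function.Injective f := by
    intro u v huv
    by_contra hne
    apply hz u v hne
    rw [huv]
    unfold o
    ring
  refine ⟨hinj, ?_, ?_⟩
  · rintro a b c d hab hcd hne X ⟨h1, h2⟩
    have hab' : a ≠ b := hab.ne
    have hcd' : c ≠ d := hcd.ne
    by_cases hac : a = c
    · subst hac
      have hbd : b ≠ d := fun h => hne (by rw [h])
      have hX := seg_eq (gp a b d hab' hcd' hbd) h1 h2
      subst hX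
      exact ⟨Or.inl rfl, Or.inl rfl⟩
    by_cases had : a = d
    · subst had
      have hbc : b ≠ c := fun h => hne (by rw [h, Sym2.eq_swap])
      rw [segment_symm] at h2
      have hX := seg_eq (gp a b c hab' hac hbc) h1 h2
      subst hX
      exact ⟨Or.inl rfl, Or.inr rfl⟩
    by_cases hbc : b = c
    · subst hbc
      rw [segment_symm] at h1
      have hX := seg_eq (gp b a d hab'.symm hcd' had) h1 h2
      subst hX
      exact ⟨Or.inr rfl, Or.inl rfl⟩
    by_cases hbd : b = d
    · subst hbd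
      rw [segment_symm] at h1 h2
      have hX := seg_eq (gp b a c hab'.symm hbc hac) h1 h2
      subst hX
      exact ⟨Or.inr rfl, Or.inr rfl⟩
    exact absurd ((seg (f a) (f b) (f c) (f d)).2 (gp a b c hab' hac hbc)
      (gp a b d hab' had hbd) (gp c d a hcd' (Ne.symm hac) (Ne.symm had))
      (gp c d b hcd' (Ne.symm hbc) (Ne.symm hbd)) ⟨X, h1, h2⟩) (hx a b c d hab hcd)
  · intro v a b hab hv
    by_contra hcon
    rw [not_or] at hcon
    exact gp a b v hab.ne (Ne.symm hcon.1) (Ne.symm hcon.2) (seg_zero hv)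

end Pool.Agent.SGP.H19
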